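import Mathlib
import Pool.Agent.H452.IRF.Sol

/-!
# Continuum many pairwise incomparable intermediate residual finiteness growth functions

The starting result `IntermediateRF` gives one finitely generated residually finite group whose
residual finiteness growth function is of intermediate growth. Here: there is a family of groups
`G A`, one for every set `A` of natural numbers, all of them residually finite, generated by at
most three elements and soluble of derived length at most three, such that the residual finiteness
growth function of each `G A` is of intermediate growth, and for `A ≠ B` the function of `G A` is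
not dominated by the function of `G B`. So there is an antichain of continuum many equivalence
classes of intermediate residual finiteness growth functions.

The groups are the groups of P. Hall type of the starting library, now for the sequences
`e (j + 1) = 2 ^ (e j - 2)` for `j ∉ A` and `e (j + 1) = 2 ^ (e j - 3)` for `j ∈ A`: after the
first difference of `A` and `B` the scales at which the two functions jump interleave.
-/

set_option autoImplicit false

namespace Pool.Agent.Results.MP_514792_al.Antichain

open Pool.Agent.Helper439.RF

/-- `f` is of intermediate growth: faster than every polynomial and slower than every exponential. -/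
def IsIntermediate (f : ℕ → ℝ) : Prop :=
  (∀ d : ℕ, 1 ≤ d → Dominated (fun n => (n : ℝ) ^ d) f ∧ ¬ Dominated f (fun n => (n : ℝ) ^ d)) ∧
    Dominated f (fun n => Real.exp n) ∧ ¬ Dominated (fun n => Real.exp n) f

/-- There are groups `G A` with generating sets `S A`, one for every set `A` of natural numbers,
such that: `S A` is finite with at most three elements and generates `G A`; `G A` is residually
finite, soluble of derived length at most three, and its residual finiteness growth function is of
intermediate growth; and for `A ≠ B` the residual finiteness growth function of `G A` is not
dominated by that of `G B`. -/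
theorem result : ∃ (G : Set ℕ → Type) (_ : ∀ A, Group (G A)) (S : ∀ A, Set (G A)),
    (∀ A, ((S A).Finite ∧ (S A).ncard ≤ 3 ∧ Subgroup.closure (S A) = ⊤) ∧
      Group.ResiduallyFinite (G A) ∧ derivedSeries (G A) 3 = ⊥ ∧
      IsIntermediate (fun n => (rfGrowth (S A) n : ℝ))) ∧
    ∀ A B : Set ℕ, A ≠ B →
      ¬ Dominated (fun n => (rfGrowth (S A) n : ℝ)) (fun n => (rfGrowth (S B) n : ℝ)) := by
  refine ⟨fun A => Helper439.HallG.GG (H452.IRF.kk (H452.IRF.es A)) (H452.IRF.dd (H452.IRF.es A)),
    fun A => inferInstance, fun A => Helper439.HallG.SS _ _, fun A => ⟨⟨?_, ?_, ?_⟩, ?_, ?_, ?_⟩,
    fun A B hAB => H452.IRF.incomparable hAB⟩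
  · exact Helper439.HallG.SS_finite _ _
  · exact H452.IRF.SS_ncard _ _
  · exact Helper439.HallG.SS_closure _ _
  · exact H452.IRF.resFinite (H452.IRF.adm_es A)
  · exact H452.IRF.derived_three _ _
  · exact ⟨fun d _ => H452.IRF.poly_part (H452.IRF.adm_es A) d,
      H452.IRF.exp_part (H452.IRF.adm_es A), H452.IRF.not_exp (H452.IRF.adm_es A)⟩

end Pool.Agent.Results.MP_514792_al.Antichain
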